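import Pool.Agent.Lib.MP_0a5adf_nt.EXP.Base

/-!
# Corollary (b): integers in cycles (module PER)
-/

set_option autoImplicit false

namespace Pool.Agent.Lib.MP_0a5adf_nt.EXP.H35

open Finset Pool.Agent.Lib.MP_0a5adf_nt.EXP

/-- The periodic integers of absolute value at most `X`. -/
def PX (X : ℝ) : Set ℤ := {x : ℤ | |(x : ℝ)| ≤ X ∧ x ∈ Function.periodicPts T}

theorem PX_subset (X : ℝ) : PX X ⊆ Set.Icc (-⌊X⌋) ⌊X⌋ := by
  intro x hx
  have h := abs_le.1 hx.1
  refine ⟨?_, Int.le_floor.2 h.2⟩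
  have : -x ≤ ⌊X⌋ := Int.le_floor.2 (by push_cast; linarith [h.1])
  linarith

theorem PX_finite (X : ℝ) : (PX X).Finite := (Set.finite_Icc _ _).subset (PX_subset X)

theorem injOn_iterate (n : ℕ) : Set.InjOn (T^[n]) (Function.periodicPts T) :=
  (Function.bijOn_periodicPts T).injOn.iterate (Function.bijOn_periodicPts T).mapsTo n

theorem mapsTo_iterate (n : ℕ) :
    Set.MapsTo (T^[n]) (Function.periodicPts T) (Function.periodicPts T) :=
  (Function.bijOn_periodicPts T).mapsTo.iterate n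

/-- The periodic integers with small image are few. -/
theorem ncard_small (X Y : ℝ) (n : ℕ) :
    {x : ℤ | x ∈ PX X ∧ T^[n] x ∈ PX Y}.ncard ≤ (PX Y).ncard := by
  refine Set.ncard_le_ncard_of_injOn (T^[n]) (fun x hx => hx.2) ?_ (PX_finite Y)
  exact (injOn_iterate n).mono (fun x hx => hx.1.2)

theorem step (m : ℕ) (X : ℝ) (h1 : (2 : ℝ) ^ (3 * m) ≤ X) (h2 : X < 2 ^ (3 * m + 3)) :
    (PX X).ncard ≤ (S m 3).ncard + 4 * (PX (X / 8)).ncard := by
  classical
  have hsub : PX X ⊆ (PX X ∩ S m 3) ∪ ⋃ i ∈ Finset.Icc 1 4,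
      {x : ℤ | x ∈ PX X ∧ T^[i * m] x ∈ PX (X / 8)} := by
    intro x hx
    by_cases hS : x ∈ S m 3
    · exact Or.inl ⟨hx, hS⟩
    · right
      have hb : |x| ≤ 2 ^ (3 * m + 3) := by
        have : ((|x| : ℤ) : ℝ) ≤ ((2 ^ (3 * m + 3) : ℤ) : ℝ) := by
          push_cast
          exact hx.1.trans h2.le
        exact_mod_cast this
      have hex : ∃ i : ℕ, 1 ≤ i ∧ i ≤ 4 ∧ 2 ^ 3 * |T^[i * m] x| < 2 ^ (3 * m) := by
        by_contra hcon
        push Not at hcon
        exact hS ⟨hb, fun i h1 h4 => hcon i h1 h4⟩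
      obtain ⟨i, hi1, hi4, hi⟩ := hex
      simp only [Set.mem_iUnion]
      refine ⟨i, Finset.mem_Icc.2 ⟨hi1, hi4⟩, hx, ?_, mapsTo_iterate _ hx.2⟩
      have hr : ((2 ^ 3 * |T^[i * m] x| : ℤ) : ℝ) < ((2 ^ (3 * m) : ℤ) : ℝ) := by
        exact_mod_cast hi
      push_cast at hr
      rw [le_div_iff₀ (by norm_num)]
      linarith
  have hfin : (PX X ∩ S m 3).Finite := (PX_finite X).inter_of_left _
  have hSfin : (S m 3).Finite := by
    refine (Set.finite_Icc (-(2 ^ (3 * m + 3) : ℤ)) (2 ^ (3 * m + 3))).subset ?_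
    intro x hx
    exact abs_le.1 hx.1
  have hUfin : (⋃ i ∈ Finset.Icc 1 4, {x : ℤ | x ∈ PX X ∧ T^[i * m] x ∈ PX (X / 8)}).Finite :=
    (Finset.finite_toSet _).biUnion (fun i _ => (PX_finite X).subset fun x hx => hx.1)
  calc (PX X).ncard ≤ _ := Set.ncard_le_ncard hsub (hfin.union hUfin)
    _ ≤ _ := Set.ncard_union_le _ _
    _ ≤ (S m 3).ncard + ∑ i ∈ Finset.Icc 1 4,
        {x : ℤ | x ∈ PX X ∧ T^[i * m] x ∈ PX (X / 8)}.ncard := by
        refine add_le_add (Set.ncard_le_ncard Set.inter_subset_right hSfin) ?_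
        exact Finset.set_ncard_biUnion_le _ _
    _ ≤ (S m 3).ncard + ∑ i ∈ Finset.Icc 1 4, (PX (X / 8)).ncard := by
        exact Nat.add_le_add_left (Finset.sum_le_sum fun i _ => ncard_small _ _ _) _
    _ = _ := by simp

theorem eight_rpow : (5 : ℝ) ≤ 8 ^ (0.941 : ℝ) := by
  have h1 : (8 : ℝ) ^ (4 / 5 : ℝ) ≤ 8 ^ (0.941 : ℝ) :=
    Real.rpow_le_rpow_of_exponent_le (by norm_num) (by norm_num)
  refine le_trans ?_ h1
  by_contra hcon
  push Not at hcon
  have h2 : ((8 : ℝ) ^ (4 / 5 : ℝ)) ^ 5 < 5 ^ 5 :=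
    pow_lt_pow_left₀ hcon (by positivity) (by norm_num)
  rw [← Real.rpow_natCast, ← Real.rpow_mul (by norm_num)] at h2
  norm_num at h2

/-- Corollary (b). -/
theorem per (h : MainStatement) : PerStatement := by
  obtain ⟨C, hC⟩ := h 3
  set K : ℝ := max 17 (5 * C) with hK
  have hK17 : 17 ≤ K := le_max_left _ _
  have hKC : 5 * C ≤ K := le_max_right _ _
  refine ⟨K, fun X hX => ?_⟩
  have key : ∀ m : ℕ, ∀ X : ℝ, 1 ≤ X → X < 2 ^ (3 * m + 3) →
      ((PX X).ncard : ℝ) ≤ K * X ^ (0.941 : ℝ) := by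
    intro m
    induction m with
    | zero =>
      intro X hX1 hX2
      have hsub : PX X ⊆ ((Finset.Icc (-8) 8 : Finset ℤ) : Set ℤ) := by
        intro x hx
        have h := abs_le.1 (hx.1.trans hX2.le)
        norm_num at h
        rw [Finset.coe_Icc, Set.mem_Icc]
        constructor
        · exact_mod_cast h.1
        · exact_mod_cast h.2
      have hc : (PX X).ncard ≤ 17 := by
        refine (Set.ncard_le_ncard hsub (Finset.finite_toSet _)).trans ?_
        rw [Set.ncard_coe_finset]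
        simp
      have h1 : (1 : ℝ) ≤ X ^ (0.941 : ℝ) := Real.one_le_rpow hX1 (by norm_num)
      have hc' : ((PX X).ncard : ℝ) ≤ 17 := by exact_mod_cast hc
      nlinarith
    | succ m ih =>
      intro X hX1 hX2
      rcases lt_or_ge X (2 ^ (3 * m + 3)) with hlt | hge
      · exact ih X hX1 hlt
      · have hge' : (2 : ℝ) ^ (3 * (m + 1)) ≤ X := by
          rw [show 3 * (m + 1) = 3 * m + 3 by ring]; exact hge
        have hs := step (m + 1) X hge' hX2
        have hs' : ((PX X).ncard : ℝ) ≤ ((S (m + 1) 3).ncard : ℝ) + 4 * ((PX (X / 8)).ncard : ℝ) := by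
          exact_mod_cast hs
        have h8 : (1 : ℝ) ≤ X / 8 := by
          rw [le_div_iff₀ (by norm_num)]
          have : (8 : ℝ) ≤ 2 ^ (3 * m + 3) := by
            rw [pow_add]
            have : (1 : ℝ) ≤ 2 ^ (3 * m) := one_le_pow₀ (by norm_num)
            norm_num
            linarith
          linarith
        have h8' : X / 8 < 2 ^ (3 * m + 3) := by
          rw [div_lt_iff₀ (by norm_num)]
          refine hX2.trans_eq ?_
          rw [show 3 * (m + 1) + 3 = 3 * m + 3 + 3 by ring, pow_add _ (3 * m + 3) 3]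
          norm_num
        have hi := ih (X / 8) h8 h8'
        have hX0 : (0 : ℝ) ≤ X := by linarith
        have hm := hC (m + 1)
        have hpow : (2 : ℝ) ^ (0.941 * (3 * ((m + 1 : ℕ) : ℝ))) ≤ X ^ (0.941 : ℝ) := by
          rw [mul_comm, Real.rpow_mul (by norm_num)]
          refine Real.rpow_le_rpow (by positivity) ?_ (by norm_num)
          refine le_trans (le_of_eq ?_) hge'
          rw [← Real.rpow_natCast]
          push_cast
          ring_nf
        have hC0 : 0 ≤ C := by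
          have := hC 0
          simp only [CharP.cast_eq_zero, mul_zero, Real.rpow_zero, mul_one] at this
          exact (Nat.cast_nonneg _).trans this
        have hm' : ((S (m + 1) 3).ncard : ℝ) ≤ C * X ^ (0.941 : ℝ) :=
          hm.trans (mul_le_mul_of_nonneg_left hpow hC0)
        have hdiv : (X / 8) ^ (0.941 : ℝ) = X ^ (0.941 : ℝ) / 8 ^ (0.941 : ℝ) :=
          Real.div_rpow hX0 (by norm_num) _
        have hle : (X / 8) ^ (0.941 : ℝ) ≤ X ^ (0.941 : ℝ) / 5 := by
          rw [hdiv]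
          exact div_le_div_of_nonneg_left (Real.rpow_nonneg hX0 _) (by norm_num) eight_rpow
        have hXp : 0 ≤ X ^ (0.941 : ℝ) := Real.rpow_nonneg hX0 _
        have hK0 : 0 ≤ K := by linarith
        have : ((PX (X / 8)).ncard : ℝ) ≤ K * (X ^ (0.941 : ℝ) / 5) :=
          hi.trans (mul_le_mul_of_nonneg_left hle hK0)
        nlinarith
  obtain ⟨m, hm⟩ := pow_unbounded_of_one_lt X (by norm_num : (1 : ℝ) < 2)
  have h := key m X hX (hm.trans_le (pow_le_pow_right₀ (by norm_num) (by omega)))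
  exact h

end Pool.Agent.Lib.MP_0a5adf_nt.EXP.H35
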